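import Pool.Agent.TH290.CL.Flow

/-!
# Extensions of arbitrary maps by hyperbolic flows: definitions

`V n = ℝⁿ`, `DiffM n N r = Diff^r(N)`, `strongTop n N r` its strong (Whitney) `C^r` topology
(`Pool/Agent/H718R2/G0.lean`); `NonWand`: `Pool/Agent/W564/SC/Defs.lean`; `IsFlow n N ψ`: `ψ` is a
smooth flow on `N` (`Pool/Agent/TH290/CL/Flow.lean`).
-/

set_option autoImplicit false

open scoped Manifold ContDiff Topology

namespace Pool.Agent.T6.H48.FX

open Pool.Agent.H718R2.G Pool.Agent.W564.SC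

/-- A chain of the flow `φ` from `w 0` to `w m`: `w (i + 1)` is `δ`-close to `φ_{t i} (w i)`, and the
times `t i` are between `1` and `2`. -/
def IsChain {Y : Type*} [MetricSpace Y] (φ : ℝ → Y → Y) (δ : ℝ) (m : ℕ) (w : ℕ → Y) (t : ℕ → ℝ) :
    Prop :=
  ∀ i < m, 1 ≤ t i ∧ t i ≤ 2 ∧ dist (φ (t i) (w i)) (w (i + 1)) < δ

/-- The periodic shadowing property of a flow: closed `δ`-chains are `η`-shadowed by closed orbits
`p 0, p 1 = φ_{s 0} (p 0), …, p m = p 0`, with small changes `|s i - t i| ≤ η` of the times. -/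
def FlowShadow {Y : Type*} [MetricSpace Y] (φ : ℝ → Y → Y) : Prop :=
  ∀ η : ℝ, 0 < η → ∃ δ : ℝ, 0 < δ ∧ ∀ (m : ℕ) (w : ℕ → Y) (t : ℕ → ℝ), 1 ≤ m → w m = w 0 →
    IsChain φ δ m w t → ∃ (p : ℕ → Y) (s : ℕ → ℝ), p m = p 0 ∧
      ∀ i < m, φ (s i) (p i) = p (i + 1) ∧ |s i - t i| ≤ η ∧ dist (p i) (w i) < η

/-- The flow is chain transitive: any two points are joined by `δ`-chains. -/
def FlowTrans {Y : Type*} [MetricSpace Y] (φ : ℝ → Y → Y) : Prop :=
  ∀ δ : ℝ, 0 < δ → ∀ p q : Y, ∃ (m : ℕ) (w : ℕ → Y) (t : ℕ → ℝ), 1 ≤ m ∧ w 0 = p ∧ w m = q ∧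
    IsChain φ δ m w t

/-- The averages of `τ` along the orbits of `f` are nonnegative: `∑_{j < i} τ (f^j x) ≥ - ε i` for
all `x` and all large `i`. (Equivalently, `∫ τ dμ ≥ 0` for all invariant probability measures.) -/
def AvgNonneg {X : Type*} (f : X → X) (τ : X → ℝ) : Prop :=
  ∀ ε : ℝ, 0 < ε → ∃ i₀ : ℕ, ∀ i ≥ i₀, ∀ x : X, -(ε * i) ≤ birkhoffSum f τ i x

/-- On the set `Θ(X × Y)`, which is invariant under `F` and the flow `ψ`, `F` is the skew product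
`(x, y) ↦ (f x, φ_{τ(x)} y)` and `ψ` is the flow `φ` on the second factor. -/
structure IsFlowExt {N : Type*} [TopologicalSpace N] (F : N → N) (ψ : ℝ → N → N)
    {X Y : Type*} [TopologicalSpace X] [TopologicalSpace Y] (f : X → X) (φ : ℝ → Y → Y)
    (τ : X → ℝ) (Θ : X × Y → N) : Prop where
  emb : Topology.IsEmbedding Θ
  cont : Continuous τ
  act : ∀ s x y, ψ s (Θ (x, y)) = Θ (x, φ s y)
  map : ∀ x y, F (Θ (x, y)) = Θ (f x, φ (τ x) y)

end Pool.Agent.T6.H48.FX
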