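import Pool.Agent.T6.H48.FX.Defs

/-!
# Closed orbits of flows which come back to the initial point only at the end of the period
-/

set_option autoImplicit false

open Filter Set Metric

universe w

namespace Pool.Agent.T6.H48.FX

section
variable {Y : Type w} [MetricSpace Y] {φ : ℝ → Y → Y}

theorem flow_nsmul (h0 : ∀ y, φ 0 y = y) (ha : ∀ s t y, φ (s + t) y = φ s (φ t y)) {a : ℝ} {q : Y}
    (hq : φ a q = q) (n : ℕ) : φ (n * a) q = q := by
  induction n with
  | zero => rw [Nat.cast_zero, zero_mul, h0]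
  | succ n ih => rw [Nat.cast_succ, add_mul, one_mul, ha, hq, ih]

/-- positions of a shadowing orbit -/
theorem flow_sums (h0 : ∀ y, φ 0 y = y) (ha : ∀ s t y, φ (s + t) y = φ s (φ t y)) {m : ℕ}
    {p : ℕ → Y} {s : ℕ → ℝ} (h : ∀ i < m, φ (s i) (p i) = p (i + 1)) :
    ∀ i ≤ m, φ (∑ j ∈ Finset.range i, s j) (p 0) = p i := by
  intro i
  induction i with
  | zero => intro _; rw [Finset.sum_range_zero, h0]
  | succ i ih =>
    intro hi
    rw [Finset.sum_range_succ, add_comm, ha, ih (by omega), h i (by omega)]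

theorem exists_interval {m : ℕ} {s : ℕ → ℝ} {u : ℝ} (hu : 0 ≤ u)
    (hum : u < ∑ j ∈ Finset.range m, s j) :
    ∃ i < m, ∑ j ∈ Finset.range i, s j ≤ u ∧ u < ∑ j ∈ Finset.range (i + 1), s j := by
  induction m with
  | zero => simp at hum; linarith
  | succ m ih =>
    by_cases h : u < ∑ j ∈ Finset.range m, s j
    · obtain ⟨i, hi, h1, h2⟩ := ih h
      exact ⟨i, by omega, h1, h2⟩
    · push Not at h
      exact ⟨m, by omega, h, hum⟩

/-- closed orbits are dense -/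
theorem exists_closed (h0 : ∀ y, φ 0 y = y) (ha : ∀ s t y, φ (s + t) y = φ s (φ t y))
    (hsh : FlowShadow φ) (htr : FlowTrans φ) (y : Y) {ε : ℝ} (hε : 0 < ε) :
    ∃ (q : Y) (a : ℝ), 0 < a ∧ φ a q = q ∧ dist q y < ε := by
  obtain ⟨δ, hδ, H⟩ := hsh (min ε (1 / 2)) (lt_min hε (by norm_num))
  obtain ⟨m, w, t, hm, hw0, hwm, hw⟩ := htr δ hδ y y
  obtain ⟨p, s, hpm, hp⟩ := H m w t hm (hwm.trans hw0.symm) hw
  refine ⟨p 0, ∑ j ∈ Finset.range m, s j, ?_, ?_, ?_⟩
  · apply Finset.sum_pos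
    · intro j hj
      have h1 := hp j (Finset.mem_range.1 hj)
      have h2 := hw j (Finset.mem_range.1 hj)
      have h3 := abs_le.1 (h1.2.1.trans (min_le_right _ _))
      linarith
    · exact ⟨0, Finset.mem_range.2 (by omega)⟩
  · rw [flow_sums h0 ha (fun i hi => (hp i hi).1) m le_rfl, hpm]
  · have h1 := (hp 0 (by omega)).2.2
    rw [hw0] at h1
    exact h1.trans_le (min_le_left _ _)

/-- the points of a closed orbit -/
theorem orbit_mod (h0 : ∀ y, φ 0 y = y) (ha : ∀ s t y, φ (s + t) y = φ s (φ t y)) {a : ℝ}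
    (ha0 : 0 < a) {q : Y} (hq : φ a q = q) (t : ℝ) : ∃ u ∈ Icc (0 : ℝ) a, φ t q = φ u q := by
  have hneg : φ (-a) q = q := by
    conv_lhs => rw [← hq, ← ha, neg_add_cancel, h0]
  have hz : ∀ n : ℤ, φ (n * a) q = q := by
    intro n
    obtain ⟨k, rfl | rfl⟩ := n.eq_nat_or_neg
    · exact_mod_cast flow_nsmul h0 ha hq k
    · have h1 := flow_nsmul h0 ha hneg k
      rw [show (((-(k : ℤ) : ℤ) : ℝ)) * a = (k : ℝ) * (-a) by push_cast; ring]
      exact h1
  refine ⟨t - ⌊t / a⌋ * a, ⟨?_, ?_⟩, ?_⟩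
  · have := Int.floor_le (t / a)
    rw [le_div_iff₀ ha0] at this
    linarith
  · have := Int.lt_floor_add_one (t / a)
    rw [div_lt_iff₀ ha0] at this
    linarith
  · conv_lhs => rw [show t = (t - ⌊t / a⌋ * a) + ⌊t / a⌋ * a by ring, ha, hz]

/-- a closed orbit away from `p` -/
theorem exists_other_closed [CompactSpace Y] (hc : Continuous (fun q : ℝ × Y => φ q.1 q.2))
    (h0 : ∀ y, φ 0 y = y)
    (ha : ∀ s t y, φ (s + t) y = φ s (φ t y)) (hsh : FlowShadow φ) (htr : FlowTrans φ) (p : Y)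
    (hp : ∃ y, ∀ t, φ t p ≠ y) :
    ∃ (q : Y) (a c : ℝ), 0 < a ∧ φ a q = q ∧ 0 < c ∧ ∀ t, c ≤ dist (φ t q) p := by
  -- a closed orbit not containing `p`
  obtain ⟨q, a, ha0, hq, hqp⟩ : ∃ (q : Y) (a : ℝ), 0 < a ∧ φ a q = q ∧ ∀ t, φ t q ≠ p := by
    by_cases hper : ∃ b : ℝ, 0 < b ∧ φ b p = p
    · obtain ⟨b, hb0, hb⟩ := hper
      obtain ⟨y, hy⟩ := hp
      have hcp : IsCompact ((fun t => φ t p) '' Icc 0 b) :=
        isCompact_Icc.image (hc.comp (continuous_id.prodMk continuous_const))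
      have hyn : y ∉ (fun t => φ t p) '' Icc 0 b := by
        rintro ⟨t, _, ht⟩
        exact hy t ht
      obtain ⟨ε, hε, hε'⟩ := Metric.isOpen_iff.1 hcp.isClosed.isOpen_compl y hyn
      obtain ⟨q, a, ha0, hq, hqy⟩ := exists_closed h0 ha hsh htr y hε
      refine ⟨q, a, ha0, hq, fun t ht => ?_⟩
      have h1 : φ (-t) p = q := by rw [← ht, ← ha, neg_add_cancel, h0]
      obtain ⟨u, hu, hu'⟩ := orbit_mod h0 ha hb0 hb (-t)
      exact hε' (mem_ball.2 hqy) ⟨u, hu, by show φ u p = q; rw [← hu']; exact h1⟩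
    · push Not at hper
      obtain ⟨q, a, ha0, hq, -⟩ := exists_closed h0 ha hsh htr p one_pos
      refine ⟨q, a, ha0, hq, fun t ht => hper a ha0 ?_⟩
      rw [← ht, ← ha, add_comm, ha, hq]
  have hco : Continuous (fun t => dist (φ t q) p) :=
    (hc.comp (continuous_id.prodMk continuous_const)).dist continuous_const
  obtain ⟨t₀, ht₀, hmin⟩ := isCompact_Icc.exists_isMinOn (nonempty_Icc.2 ha0.le)
    (hco.continuousOn (s := Icc 0 a))
  refine ⟨q, a, dist (φ t₀ q) p, ha0, hq, dist_pos.2 (hqp t₀), fun t => ?_⟩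
  obtain ⟨u, hu, hu'⟩ := orbit_mod h0 ha ha0 hq t
  rw [hu']
  exact hmin hu

theorem flex [CompactSpace Y] (hc : Continuous (fun q : ℝ × Y => φ q.1 q.2))
    (h0 : ∀ y, φ 0 y = y)
    (ha : ∀ s t y, φ (s + t) y = φ s (φ t y)) (hsh : FlowShadow φ) (htr : FlowTrans φ) (p : Y)
    (hp : ∃ y, ∀ t, φ t p ≠ y) {η : ℝ} (hη : 0 < η) :
    ∃ ρ R T₀ : ℝ, 0 < ρ ∧ 0 < R ∧ ∀ T ≥ T₀, ∃ (p' : Y) (T' : ℝ), dist p' p < η ∧
      |T' - T| ≤ η * T ∧ φ T' p' = p' ∧ ∀ u, R ≤ u → u ≤ T' - R → ρ ≤ dist (φ u p') p' := by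
  obtain ⟨q, a, c, ha0, hq, hc0, hcq⟩ := exists_other_closed hc h0 ha hsh htr p hp
  -- uniform continuity
  have huc : UniformContinuousOn (fun q : ℝ × Y => φ q.1 q.2) (Icc (0 : ℝ) 3 ×ˢ (univ : Set Y)) :=
    (isCompact_Icc.prod isCompact_univ).uniformContinuousOn_of_continuous hc.continuousOn
  rw [Metric.uniformContinuousOn_iff] at huc
  obtain ⟨ε₁, hε₁, huc⟩ := huc (c / 4) (by positivity)
  have huc' : ∀ v ∈ Icc (0 : ℝ) 3, ∀ y y' : Y, dist y y' < ε₁ → dist (φ v y) (φ v y') < c / 4 := by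
    intro v hv y y' hy
    refine huc (v, y) ⟨hv, mem_univ _⟩ (v, y') ⟨hv, mem_univ _⟩ ?_
    rw [Prod.dist_eq]
    simp only [dist_self]
    exact max_lt hε₁ hy
  obtain ⟨η', hη', hη'1, hη'2, hη'3, hη'4⟩ : ∃ η' : ℝ, 0 < η' ∧ η' ≤ η / 4 ∧ η' ≤ 1 / 2 ∧ η' ≤ ε₁ ∧
      η' ≤ c / 4 :=
    ⟨min (min (η / 4) (1 / 2)) (min ε₁ (c / 4)), by positivity,
      (min_le_left _ _).trans (min_le_left _ _), (min_le_left _ _).trans (min_le_right _ _),
      (min_le_right _ _).trans (min_le_left _ _), (min_le_right _ _).trans (min_le_right _ _)⟩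
  obtain ⟨δ, hδ, H⟩ := hsh η' hη'
  obtain ⟨m₁, w₁, t₁, hm₁, hw₁0, hw₁m, hw₁⟩ := htr δ hδ p q
  obtain ⟨m₂, w₂, t₂, hm₂, hw₂0, hw₂m, hw₂⟩ := htr δ hδ q p
  obtain ⟨S₁, hS₁⟩ : ∃ S₁ : ℝ, S₁ = ∑ i ∈ Finset.range m₁, t₁ i := ⟨_, rfl⟩
  obtain ⟨S₂, hS₂⟩ : ∃ S₂ : ℝ, S₂ = ∑ i ∈ Finset.range m₂, t₂ i := ⟨_, rfl⟩
  have hS₁0 : 0 ≤ S₁ := by
    rw [hS₁]
    exact Finset.sum_nonneg fun i hi => by linarith [(hw₁ i (Finset.mem_range.1 hi)).1]
  have hS₂0 : 0 ≤ S₂ := by
    rw [hS₂]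
    exact Finset.sum_nonneg fun i hi => by linarith [(hw₂ i (Finset.mem_range.1 hi)).1]
  refine ⟨c / 2, 3 * (m₁ + m₂), 4 * (S₁ + S₂ + a + 1) + 4 * a / η, by positivity, by positivity, ?_⟩
  intro T hT
  have haη : 0 < 4 * a / η := by positivity
  -- the number of the loops
  obtain ⟨n, hn⟩ : ∃ n : ℕ, n = ⌊(T - S₁ - S₂) / a⌋₊ := ⟨_, rfl⟩
  have hT1 : a + 1 ≤ T - S₁ - S₂ := by linarith
  have hn1 : (n : ℝ) * a ≤ T - S₁ - S₂ := by
    have := Nat.floor_le (show 0 ≤ (T - S₁ - S₂) / a by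
      apply div_nonneg _ ha0.le
      linarith)
    rw [← hn, le_div_iff₀ ha0] at this
    exact this
  have hn2 : T - S₁ - S₂ < n * a + a := by
    have := Nat.lt_floor_add_one ((T - S₁ - S₂) / a)
    rw [← hn, div_lt_iff₀ ha0] at this
    linarith
  have hna : 1 ≤ n * a := by linarith
  obtain ⟨k, hk⟩ : ∃ k : ℕ, k = ⌊n * a⌋₊ := ⟨_, rfl⟩
  have hk1 : 1 ≤ k := by
    rw [hk]
    exact Nat.le_floor (by exact_mod_cast hna)
  have hk0 : (0 : ℝ) < k := by exact_mod_cast hk1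
  have hk2 : (k : ℝ) ≤ n * a := by
    rw [hk]
    exact Nat.floor_le (by linarith)
  have hk3 : n * a < k + 1 := by
    rw [hk]
    exact Nat.lt_floor_add_one _
  obtain ⟨l, hl⟩ : ∃ l : ℝ, l = n * a / k := ⟨_, rfl⟩
  have hl1 : 1 ≤ l := by rw [hl, le_div_iff₀ hk0]; linarith
  have hl2 : l ≤ 2 := by
    rw [hl, div_le_iff₀ hk0]
    have : (1 : ℝ) ≤ k := by exact_mod_cast hk1
    linarith
  have hlk : k * l = n * a := by rw [hl]; field_simp
  have hφq : φ (n * a) q = q := flow_nsmul h0 ha hq n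
  -- the chain
  obtain ⟨m, hm⟩ : ∃ m : ℕ, m = m₁ + k + m₂ := ⟨_, rfl⟩
  obtain ⟨w, hw⟩ : ∃ w : ℕ → Y, w = fun i =>
    if i < m₁ then w₁ i else if i < m₁ + k then φ ((i - m₁ : ℕ) * l) q else w₂ (i - (m₁ + k)) :=
    ⟨_, rfl⟩
  obtain ⟨t, ht⟩ : ∃ t : ℕ → ℝ, t = fun i =>
    if i < m₁ then t₁ i else if i < m₁ + k then l else t₂ (i - (m₁ + k)) := ⟨_, rfl⟩
  have wa : ∀ i ≤ m₁, w i = w₁ i := by
    intro i hi
    rw [hw]
    by_cases h1 : i < m₁
    · simp only [h1, if_true]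
    · have h2 : i = m₁ := by omega
      have h3 : i < m₁ + k := by omega
      simp only [h1, if_false, h3, if_true]
      rw [h2, Nat.sub_self, Nat.cast_zero, zero_mul, h0, hw₁m]
  have wb : ∀ j ≤ k, w (m₁ + j) = φ (j * l) q := by
    intro j hj
    rw [hw]
    have h1 : ¬ m₁ + j < m₁ := by omega
    by_cases h3 : m₁ + j < m₁ + k
    · simp only [h1, if_false, h3, if_true]
      rw [Nat.add_sub_cancel_left]
    · simp only [h1, if_false, h3]
      have h4 : j = k := by omega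
      rw [h4, Nat.sub_self, hw₂0, hlk, hφq]
  have wc : ∀ j, w (m₁ + k + j) = w₂ j := by
    intro j
    rw [hw]
    have h1 : ¬ m₁ + k + j < m₁ := by omega
    have h3 : ¬ m₁ + k + j < m₁ + k := by omega
    simp only [h1, if_false, h3]
    rw [Nat.add_sub_cancel_left]
  have ta : ∀ i < m₁, t i = t₁ i := by
    intro i hi
    rw [ht]
    simp only [hi, if_true]
  have tb : ∀ j < k, t (m₁ + j) = l := by
    intro j hj
    rw [ht]
    have h1 : ¬ m₁ + j < m₁ := by omega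
    have h3 : m₁ + j < m₁ + k := by omega
    simp only [h1, if_false, h3, if_true]
  have tc : ∀ j, t (m₁ + k + j) = t₂ j := by
    intro j
    rw [ht]
    have h1 : ¬ m₁ + k + j < m₁ := by omega
    have h3 : ¬ m₁ + k + j < m₁ + k := by omega
    simp only [h1, if_false, h3]
    rw [Nat.add_sub_cancel_left]
  have hchain : IsChain φ δ m w t := by
    intro i hi
    by_cases h1 : i < m₁
    · rw [wa i h1.le, wa (i + 1) h1, ta i h1]
      exact hw₁ i h1
    · obtain ⟨j, rfl⟩ := Nat.exists_eq_add_of_le (not_lt.1 h1)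
      by_cases h2 : j < k
      · rw [wb j h2.le, add_assoc, wb (j + 1) h2, tb j h2]
        refine ⟨hl1, hl2, ?_⟩
        rw [← ha]
        have : l + j * l = ((j + 1 : ℕ) : ℝ) * l := by push_cast; ring
        rw [this, dist_self]
        exact hδ
      · obtain ⟨j', rfl⟩ := Nat.exists_eq_add_of_le (not_lt.1 h2)
        rw [← add_assoc, wc, add_assoc (m₁ + k), wc, tc]
        exact hw₂ j' (by omega)
  have hw0 : w 0 = p := by rw [wa 0 (Nat.zero_le _), hw₁0]
  have hwm : w m = p := by rw [hm, wc, hw₂m]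
  have htsum : ∑ i ∈ Finset.range m, t i = S₁ + n * a + S₂ := by
    rw [hm, Finset.sum_range_add, Finset.sum_range_add, hS₁, hS₂, ← hlk]
    congr 1
    · congr 1
      · exact Finset.sum_congr rfl fun i hi => ta i (Finset.mem_range.1 hi)
      · rw [Finset.sum_congr rfl fun i hi => tb i (Finset.mem_range.1 hi), Finset.sum_const,
          Finset.card_range, nsmul_eq_mul]
    · exact Finset.sum_congr rfl fun i _ => tc i
  obtain ⟨pp, s, hpm, hpp⟩ := H m w t (by omega) (hwm.trans hw0.symm) hchain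
  have hsums := flow_sums h0 ha (fun i hi => (hpp i hi).1)
  obtain ⟨T', hT'⟩ : ∃ T' : ℝ, T' = ∑ j ∈ Finset.range m, s j := ⟨_, rfl⟩
  have hslow : ∀ i < m, 1 / 2 ≤ s i ∧ s i ≤ 3 := by
    intro i hi
    have h1 := abs_le.1 (hpp i hi).2.1
    have h2 := hchain i hi
    exact ⟨by linarith, by linarith⟩
  have hp0 : dist (pp 0) p < η' := by
    have := (hpp 0 (by omega)).2.2
    rwa [hw0] at this
  refine ⟨pp 0, T', by linarith, ?_, ?_, ?_⟩
  · -- the total time
    have h1 : |T' - (S₁ + n * a + S₂)| ≤ η' * (S₁ + n * a + S₂) := by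
      rw [hT', ← htsum, ← Finset.sum_sub_distrib]
      refine (Finset.abs_sum_le_sum_abs _ _).trans ?_
      rw [Finset.mul_sum]
      refine Finset.sum_le_sum fun i hi => ?_
      have h2 := (hpp i (Finset.mem_range.1 hi)).2.1
      have h3 := (hchain i (Finset.mem_range.1 hi)).1
      nlinarith
    have h4 : |S₁ + n * a + S₂ - T| ≤ a := by
      rw [abs_le]
      constructor <;> linarith
    have h5 : |T' - T| ≤ |T' - (S₁ + n * a + S₂)| + |S₁ + n * a + S₂ - T| := by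
      have := abs_add_le (T' - (S₁ + n * a + S₂)) (S₁ + n * a + S₂ - T)
      rwa [sub_add_sub_cancel] at this
    have h6 : S₁ + n * a + S₂ ≤ T := by linarith
    have h7 : η' * (S₁ + n * a + S₂) ≤ η / 4 * T := by
      have : 0 ≤ S₁ + n * a + S₂ := by linarith
      exact mul_le_mul hη'1 h6 this (by positivity)
    have h8 : a ≤ η / 4 * T := by
      have h9 : 4 * a / η ≤ T := by linarith
      rw [div_le_iff₀ hη] at h9
      linarith
    have h10 : 0 ≤ η * T := by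
      have : 0 ≤ T := by linarith
      positivity
    linarith
  · rw [hT', hsums m le_rfl, hpm]
  · -- avoidance
    intro u hu1 hu2
    have hm₁' : (1 : ℝ) ≤ m₁ := by exact_mod_cast hm₁
    have hm₂' : (1 : ℝ) ≤ m₂ := by exact_mod_cast hm₂
    obtain ⟨i, him, hi1, hi2⟩ := exists_interval (m := m) (s := s) (u := u) (by
      have : (0 : ℝ) < 3 * (m₁ + m₂) := by positivity
      linarith) (by
      rw [← hT']
      have : (0 : ℝ) < 3 * (m₁ + m₂) := by positivity
      linarith)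
    have hmid1 : m₁ ≤ i := by
      by_contra hcon
      push Not at hcon
      have h1 : ∑ j ∈ Finset.range (i + 1), s j ≤ (i + 1 : ℕ) * 3 := by
        refine (Finset.sum_le_card_nsmul _ _ 3 fun j hj => ?_).trans ?_
        · exact (hslow j (by have := Finset.mem_range.1 hj; omega)).2
        · rw [Finset.card_range, nsmul_eq_mul]
      have h2 : ((i + 1 : ℕ) : ℝ) ≤ m₁ := by exact_mod_cast hcon
      linarith
    have hmid2 : i < m₁ + k := by
      by_contra hcon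
      push Not at hcon
      have h1 : T' = ∑ j ∈ Finset.range i, s j + ∑ j ∈ Finset.range (m - i), s (i + j) := by
        rw [hT', ← Finset.sum_range_add]
        congr 2
        omega
      have h2 : ∑ j ∈ Finset.range (m - i), s (i + j) ≤ (m - i : ℕ) * 3 := by
        refine (Finset.sum_le_card_nsmul _ _ 3 fun j hj => ?_).trans ?_
        · exact (hslow (i + j) (by have := Finset.mem_range.1 hj; omega)).2
        · rw [Finset.card_range, nsmul_eq_mul]
      have h3 : ((m - i : ℕ) : ℝ) ≤ m₂ := by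
        have : m - i ≤ m₂ := by omega
        exact_mod_cast this
      linarith
    have h1 : φ u (pp 0) = φ (u - ∑ j ∈ Finset.range i, s j) (pp i) := by
      rw [← hsums i him.le, ← ha]
      congr 1
      ring
    have hv : u - ∑ j ∈ Finset.range i, s j ∈ Icc (0 : ℝ) 3 := by
      rw [Finset.sum_range_succ] at hi2
      have := (hslow i him).2
      exact ⟨by linarith, by linarith⟩
    have h2 := huc' _ hv (pp i) (w i) ((hpp i him).2.2.trans_le hη'3)
    obtain ⟨j, rfl⟩ := Nat.exists_eq_add_of_le hmid1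
    rw [wb j (by omega), ← ha] at h2
    have h3 := hcq (u - ∑ j ∈ Finset.range (m₁ + j), s j + j * l)
    rw [h1]
    have h4 := dist_triangle4 (φ (u - ∑ j ∈ Finset.range (m₁ + j), s j + j * l) q)
      (φ (u - ∑ j ∈ Finset.range (m₁ + j), s j) (pp (m₁ + j))) (pp 0) p
    rw [dist_comm (φ (u - ∑ j ∈ Finset.range (m₁ + j), s j + j * l) q)
      (φ (u - ∑ j ∈ Finset.range (m₁ + j), s j) (pp (m₁ + j)))] at h4
    linarith

end

end Pool.Agent.T6.H48.FX
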