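import Pool.Agent.T6.H48.FX.Flex
import Pool.Agent.T6.H48.AM.Main

/-!
# The closing lemma for extensions of arbitrary maps by hyperbolic flows
-/

set_option autoImplicit false

open scoped Manifold ContDiff Topology
open Filter Set Metric

universe u v w

namespace Pool.Agent.T6.H48.FX

open Pool.Agent.H718R2.G Pool.Agent.W564.SC Pool.Agent.TH290.CL Pool.Agent.T6.H48.AM

section family
variable {n : ℕ} {N : Type u} [TopologicalSpace N] [ChartedSpace (V n) N] {ψ : ℝ → N → N}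

/-- the diffeomorphisms of a flow -/
noncomputable def flowDiff (hψ : IsFlow n N ψ) (r : ℕ∞) (s : ℝ) : DiffM n N r where
  toFun := ψ s
  invFun := ψ (-s)
  left_inv y := by rw [← hψ.add, neg_add_cancel, hψ.zero]
  right_inv y := by rw [← hψ.add, add_neg_cancel, hψ.zero]
  contMDiff_toFun := by
    have h1 : ContMDiff (𝓡 n) (𝓘(ℝ, ℝ).prod (𝓡 n)) ∞ (fun y : N => ((s : ℝ), y)) :=
      contMDiff_const.prodMk contMDiff_id
    exact (hψ.smooth.comp h1).of_le (by exact_mod_cast le_top)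
  contMDiff_invFun := by
    have h1 : ContMDiff (𝓡 n) (𝓘(ℝ, ℝ).prod (𝓡 n)) ∞ (fun y : N => ((-s : ℝ), y)) :=
      contMDiff_const.prodMk contMDiff_id
    exact (hψ.smooth.comp h1).of_le (by exact_mod_cast le_top)

theorem exists_fam (hψ : IsFlow n N ψ) {r : ℕ∞} (F : DiffM n N r) :
    ∃ H : ℝ → DiffM n N r, (∀ s y, H s y = ψ s (F y)) ∧ H 0 = F ∧ IsFam n N r H := by
  refine ⟨fun s => F.trans (flowDiff hψ r s), fun s y => rfl, ?_, ?_⟩
  · apply Diffeomorph.ext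
    intro y
    exact hψ.zero (F y)
  · intro y
    have h1 : ContMDiff (𝓘(ℝ, ℝ).prod (𝓡 n)) (𝓘(ℝ, ℝ).prod (𝓡 n)) r
        (fun q : ℝ × N => (q.1, F q.2)) :=
      contMDiff_fst.prodMk (F.contMDiff.comp contMDiff_snd)
    have h2 : ContMDiff (𝓘(ℝ, ℝ).prod (𝓡 n)) (𝓡 n) r (fun q : ℝ × N => ψ q.1 q.2) :=
      hψ.smooth.of_le (by exact_mod_cast le_top)
    exact (h2.comp h1).contMDiffAt

end family

section ext
variable {n : ℕ} {N : Type u} [TopologicalSpace N] [ChartedSpace (V n) N] {F : N → N}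
  {ψ : ℝ → N → N} {X : Type v} {Y : Type w} [TopologicalSpace X] [TopologicalSpace Y]
  {f : X → X} {φ : ℝ → Y → Y} {τ : X → ℝ} {Θ : X × Y → N}

theorem IsFlowExt.add (hψ : IsFlow n N ψ) (hF : IsFlowExt F ψ f φ τ Θ) (x : X) (s t : ℝ)
    (y : Y) : φ (s + t) y = φ s (φ t y) := by
  have h1 : Θ (x, φ (s + t) y) = Θ (x, φ s (φ t y)) := by
    rw [← hF.act, ← hF.act, ← hF.act, hψ.add]
  exact (Prod.mk.inj (hF.emb.injective h1)).2

theorem IsFlowExt.zero (hψ : IsFlow n N ψ) (hF : IsFlowExt F ψ f φ τ Θ) (x : X) (y : Y) :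
    φ 0 y = y := by
  have h1 : Θ (x, φ 0 y) = Θ (x, y) := by rw [← hF.act, hψ.zero]
  exact (Prod.mk.inj (hF.emb.injective h1)).2

theorem IsFlowExt.cont_act (hψ : IsFlow n N ψ) (hF : IsFlowExt F ψ f φ τ Θ) (x : X) :
    Continuous (fun q : ℝ × Y => φ q.1 q.2) := by
  have h1 : Continuous (fun q : ℝ × Y => Θ (x, φ q.1 q.2)) := by
    have h2 : (fun q : ℝ × Y => Θ (x, φ q.1 q.2)) = fun q : ℝ × Y => ψ q.1 (Θ (x, q.2)) := by
      funext q
      exact (hF.act q.1 x q.2).symm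
    rw [h2]
    exact hψ.smooth.continuous.comp (continuous_fst.prodMk
      (hF.emb.continuous.comp (continuous_const.prodMk continuous_snd)))
  have h3 : Continuous (fun q : ℝ × Y => (x, φ q.1 q.2)) := hF.emb.continuous_iff.2 h1
  exact continuous_snd.comp h3

/-- iterates of the perturbed maps -/
theorem iter_fam (hψ : IsFlow n N ψ) (hF : IsFlowExt F ψ f φ τ Θ) {G : N → N} {s : ℝ}
    (hG : ∀ y, G y = ψ s (F y)) (i : ℕ) (x : X) (y : Y) :
    G^[i] (Θ (x, y)) = Θ (f^[i] x, φ (i * s + birkhoffSum f τ i x) y) := by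
  induction i with
  | zero =>
    rw [birkhoffSum_zero, Nat.cast_zero, zero_mul, add_zero, hF.zero hψ x]
    rfl
  | succ i ih =>
    rw [Function.iterate_succ_apply', ih, hG, hF.map, hF.act, ← hF.add hψ x, ← hF.add hψ x,
      birkhoffSum_succ, Function.iterate_succ_apply']
    congr 3
    push_cast
    ring

end ext

theorem returns {X : Type*} [MetricSpace X] {f : X → X} (hf : Continuous f) {x : X}
    (hw : NonWand f x) (ε : ℝ) (hε : 0 < ε) (M : ℕ) :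
    ∃ (x1 : X) (m : ℕ), M ≤ m ∧ dist x1 x < ε ∧ dist (f^[m] x1) x < ε := by
  by_cases hper : ∃ a : ℕ, 1 ≤ a ∧ f^[a] x = x
  · obtain ⟨a, ha, hax⟩ := hper
    refine ⟨x, a * M, Nat.le_mul_of_pos_left M ha, by simpa using hε, ?_⟩
    have h1 : f^[a * M] x = x := by
      rw [Function.iterate_mul]
      exact Function.iterate_fixed hax M
    rw [h1]
    simpa using hε
  · push Not at hper
    obtain ⟨x1, m, hm, _, h1, h2⟩ := nonwand_long hf hw hper ε hε M
    exact ⟨x1, m, hm, h1, h2⟩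

theorem main {n : ℕ} {N : Type u} [TopologicalSpace N] [T2Space N] [CompactSpace N]
    [ChartedSpace (V n) N] [IsManifold (𝓡 n) ∞ N] (r : ℕ∞) (hr : 1 ≤ r) (F : DiffM n N r)
    {ψ : ℝ → N → N} (hψ : IsFlow n N ψ)
    {X : Type v} {Y : Type w} [MetricSpace X] [CompactSpace X] [MetricSpace Y] [CompactSpace Y]
    (f : X → X) (hfc : Continuous f) {φ : ℝ → Y → Y} (hsh : FlowShadow φ) (htr : FlowTrans φ)
    (hne : ∀ p : Y, ∃ y, ∀ t, φ t p ≠ y)
    {τ : X → ℝ} (hτ : AvgNonneg f τ) {Θ : X × Y → N} (hF : IsFlowExt F ψ f φ τ Θ) (x : X)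
    (hx : NonWand f x) (y : Y) : Closable n N r F (Θ (x, y)) := by
  intro U hU hFU
  obtain ⟨H, hH1, hH0, hHf⟩ := exists_fam hψ F
  obtain ⟨χ, hχ⟩ := Pool.Agent.W699.SC.gc n N (Θ (x, y))
  obtain ⟨κ, hκ, hcl⟩ := close_of_visits n N r hr ℝ H hHf χ (Θ (x, y)) hχ U hU
    (by rw [hH0]; exact hFU)
  obtain ⟨η, hη, hball⟩ := Pool.Agent.W216.SC.good_ball hF.emb hχ rfl
    (lt_min hκ (half_pos one_pos) : (0 : ℝ) < min κ (1 / 2))
  obtain ⟨s₀, hs₀, hs₀κ⟩ : ∃ s₀ : ℝ, 0 < s₀ ∧ s₀ * 4 = κ := ⟨κ / 4, by positivity, by ring⟩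
  obtain ⟨i₀, hi₀⟩ := hτ (s₀ / 8) (by positivity)
  obtain ⟨B, hB0, hB⟩ : ∃ B : ℝ, 0 ≤ B ∧ ∀ x, |τ x| ≤ B := by
    obtain ⟨B, hB⟩ := (isCompact_univ (X := X)).exists_bound_of_continuousOn hF.cont.continuousOn
    exact ⟨B, (norm_nonneg _).trans (hB x (mem_univ x)), fun x => hB x (mem_univ x)⟩
  have hBi : ∀ (i : ℕ) (x : X), |birkhoffSum f τ i x| ≤ i * B := by
    intro i x
    unfold birkhoffSum
    refine (Finset.abs_sum_le_sum_abs _ _).trans ?_
    refine (Finset.sum_le_card_nsmul _ _ B fun j _ => hB _).trans ?_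
    rw [Finset.card_range, nsmul_eq_mul]
  obtain ⟨η₁, hη₁, hη₁η, hη₁B⟩ : ∃ η₁ : ℝ, 0 < η₁ ∧ η₁ ≤ η ∧ η₁ * (B + s₀) ≤ s₀ / 4 := by
    refine ⟨min η (s₀ / 4 / (B + s₀)), by positivity, min_le_left _ _, ?_⟩
    have h1 : min η (s₀ / 4 / (B + s₀)) ≤ s₀ / 4 / (B + s₀) := min_le_right _ _
    rwa [le_div_iff₀ (by positivity)] at h1
  have hφc := hF.cont_act hψ x
  obtain ⟨ρ, R, T₀, hρ, hR, hflex⟩ := flex hφc (hF.zero hψ x) (hF.add hψ x) hsh htr y (hne y) hη₁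
  obtain ⟨ρ₀, hρ₀, hsep⟩ := Pool.Agent.W216.SC.sep (X := X) (Y := Y) hF.emb hχ hρ
  obtain ⟨R₁, hR₁i, hR₁⟩ : ∃ R₁ : ℕ, i₀ ≤ R₁ ∧ R ≤ s₀ / 2 * R₁ := by
    obtain ⟨q, hq⟩ := exists_nat_gt (R / (s₀ / 2))
    refine ⟨max i₀ q, le_max_left _ _, ?_⟩
    rw [div_lt_iff₀ (by positivity)] at hq
    have : (q : ℝ) ≤ (max i₀ q : ℕ) := by exact_mod_cast le_max_right _ _
    nlinarith
  obtain ⟨δ, hδ, hcl⟩ := hcl ρ₀ hρ₀ (2 * R₁)
  -- uniform continuity
  have hBc : IsCompact (closedBall ((x, y) : X × Y) η) := Metric.isClosed_closedBall.isCompact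
  have hco : ContinuousOn (fun p : X × Y => χ (Θ p)) (closedBall ((x, y) : X × Y) η) := by
    apply χ.continuousOn.comp hF.emb.continuous.continuousOn
    intro p hp
    exact (hball p hp).1
  have huc := hBc.uniformContinuousOn_of_continuous hco
  rw [Metric.uniformContinuousOn_iff] at huc
  obtain ⟨ε₃, hε₃, huc'⟩ := huc δ hδ
  obtain ⟨M, hM⟩ := exists_nat_gt (T₀ / (s₀ / 2))
  rw [div_lt_iff₀ (by positivity)] at hM
  obtain ⟨x₁, m, hmM, hd1, hd2⟩ := returns hfc hx (min η (ε₃ / 2))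
    (lt_min hη (half_pos hε₃)) (max (max M i₀) 1)
  have hm1 : 1 ≤ m := (le_max_right _ _).trans hmM
  have hmM' : M ≤ m := (le_max_left _ _).trans ((le_max_left _ _).trans hmM)
  have hmi : i₀ ≤ m := (le_max_right _ _).trans ((le_max_left _ _).trans hmM)
  have hm0 : (0 : ℝ) < m := by exact_mod_cast hm1
  have hmM'' : (M : ℝ) ≤ m := by exact_mod_cast hmM'
  obtain ⟨T, hT⟩ : ∃ T : ℝ, T = birkhoffSum f τ m x₁ + m * s₀ := ⟨_, rfl⟩
  have hT1 : s₀ / 2 * m ≤ T := by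
    have := hi₀ m hmi x₁
    rw [hT]
    nlinarith
  have hT2 : T ≤ m * (B + s₀) := by
    have := (abs_le.1 (hBi m x₁)).2
    rw [hT]
    linarith
  have hTT₀ : T₀ ≤ T := by nlinarith
  obtain ⟨p', T', hp', hT', hTp, havoid⟩ := hflex T hTT₀
  obtain ⟨s, hs⟩ : ∃ s : ℝ, s = s₀ + (T' - T) / m := ⟨_, rfl⟩
  have hsT : m * s + birkhoffSum f τ m x₁ = T' := by
    rw [hs, mul_add, mul_div_cancel₀ _ hm0.ne', hT]
    ring
  have hds : |(T' - T) / m| ≤ s₀ / 4 := by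
    rw [abs_div, abs_of_pos hm0, div_le_iff₀ hm0]
    have h1 : η₁ * T ≤ η₁ * (m * (B + s₀)) := mul_le_mul_of_nonneg_left hT2 hη₁.le
    nlinarith
  have hs1 : 3 / 4 * s₀ ≤ s := by
    have := (abs_le.1 hds).1
    rw [hs]
    linarith
  have hs2 : s ≤ 5 / 4 * s₀ := by
    have := (abs_le.1 hds).2
    rw [hs]
    linarith
  have hsn : ‖s‖ < κ := by
    rw [Real.norm_eq_abs, abs_of_pos (by linarith)]
    linarith
  have hit : ∀ i, (H s)^[i] (Θ (x₁, p')) =
      Θ (f^[i] x₁, φ (i * s + birkhoffSum f τ i x₁) p') := fun i =>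
    iter_fam hψ hF (hH1 s) i x₁ p'
  have hitm : (H s)^[m] (Θ (x₁, p')) = Θ (f^[m] x₁, p') := by rw [hit, hsT, hTp]
  have hm1' : dist ((x₁, p') : X × Y) (x, y) ≤ η := by
    rw [Prod.dist_eq]
    exact max_le (hd1.le.trans (min_le_left _ _)) (hp'.le.trans hη₁η)
  have hm2' : dist ((f^[m] x₁, p') : X × Y) (x, y) ≤ η := by
    rw [Prod.dist_eq]
    exact max_le (hd2.le.trans (min_le_left _ _)) (hp'.le.trans hη₁η)
  obtain ⟨hs1, hs1'⟩ := hball _ hm1'
  obtain ⟨hs2, hs2'⟩ := hball _ hm2'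
  refine hcl s (Θ (x₁, p')) m hsn hs1 (hs1'.trans_le (min_le_left _ _)) hm1 ?_ ?_ ?_
  · rw [hitm]
    exact hs2
  · rw [hitm, ← dist_eq_norm]
    apply huc' (f^[m] x₁, p') hm2' (x₁, p') hm1'
    rw [Prod.dist_eq]
    simp only [dist_self]
    have h5 := dist_triangle_right (f^[m] x₁) x₁ x
    have h6 := min_le_right η (ε₃ / 2)
    refine max_lt ?_ hε₃
    linarith
  · -- the visits
    have hlow : ∀ (i : ℕ) (x : X), R₁ ≤ i → R ≤ i * s + birkhoffSum f τ i x := by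
      intro i x hi
      have h1 := hi₀ i (hR₁i.trans hi) x
      have h2 : (R₁ : ℝ) ≤ i := by exact_mod_cast hi
      have h3 : (0 : ℝ) ≤ i := Nat.cast_nonneg i
      have h4 : (i : ℝ) * (3 / 4 * s₀) ≤ i * s := by gcongr
      nlinarith
    have hsub : visits χ (H s) (Θ (x₁, p')) ρ₀ m ⊆
        ((Finset.range R₁ ∪ Finset.Ico (m - R₁) m : Finset ℕ) : Set ℕ) := by
      rintro i ⟨_, him, hisrc, hid⟩
      rw [Finset.mem_coe, Finset.mem_union, Finset.mem_range, Finset.mem_Ico]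
      by_contra hcon
      push Not at hcon
      obtain ⟨hc1, hc2⟩ := hcon
      have hc3 : R₁ ≤ m - i := by
        by_contra h
        exact absurd (hc2 (by omega)) (by omega)
      have h1 := hlow i x₁ hc1
      have h2 := hlow (m - i) (f^[i] x₁) hc3
      have h3 : birkhoffSum f τ m x₁ = birkhoffSum f τ i x₁ +
          birkhoffSum f τ (m - i) (f^[i] x₁) := by
        rw [← birkhoffSum_add]
        congr 1
        omega
      have h4 : ((m - i : ℕ) : ℝ) = m - i := by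
        rw [Nat.cast_sub him.le]
      have h5 : i * s + birkhoffSum f τ i x₁ ≤ T' - R := by
        rw [h4] at h2
        rw [← hsT, h3]
        linarith
      have h6 := havoid _ h1 h5
      rw [hit] at hisrc hid
      have h7 := hsep (x₁, p') (f^[i] x₁, φ (i * s + birkhoffSum f τ i x₁) p') ?_ hs1
        (hs1'.trans_le (min_le_right _ _)) hisrc
      · linarith
      · rw [Prod.dist_eq]
        exact h6.trans (le_max_right _ _)
    refine (Set.ncard_le_ncard hsub (Finset.finite_toSet _)).trans ?_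
    rw [Set.ncard_coe_finset]
    refine (Finset.card_union_le _ _).trans ?_
    rw [Finset.card_range, Nat.card_Ico]
    omega

/-! ### reversal of the time -/

theorem unif {Y : Type w} [MetricSpace Y] [CompactSpace Y] {φ : ℝ → Y → Y}
    (hc : Continuous (fun q : ℝ × Y => φ q.1 q.2)) {δ : ℝ} (hδ : 0 < δ) :
    ∃ δ' : ℝ, 0 < δ' ∧ ∀ t ∈ Icc (-2 : ℝ) 2, ∀ y y' : Y, dist y y' < δ' →
      dist (φ t y) (φ t y') < δ := by
  have huc : UniformContinuousOn (fun q : ℝ × Y => φ q.1 q.2) (Icc (-2 : ℝ) 2 ×ˢ (univ : Set Y)) :=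
    (isCompact_Icc.prod isCompact_univ).uniformContinuousOn_of_continuous hc.continuousOn
  rw [Metric.uniformContinuousOn_iff] at huc
  obtain ⟨δ', hδ', huc⟩ := huc δ hδ
  refine ⟨δ', hδ', fun t ht y y' hy => huc (t, y) ⟨ht, mem_univ _⟩ (t, y') ⟨ht, mem_univ _⟩ ?_⟩
  rw [Prod.dist_eq]
  simp only [dist_self]
  exact max_lt hδ' hy

theorem isChain_rev {Y : Type w} [MetricSpace Y] {φ : ℝ → Y → Y} (h0 : ∀ y, φ 0 y = y)
    (ha : ∀ s t y, φ (s + t) y = φ s (φ t y)) {δ δ' : ℝ}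
    (hu : ∀ t ∈ Icc (-2 : ℝ) 2, ∀ y y' : Y, dist y y' < δ' → dist (φ t y) (φ t y') < δ)
    {m : ℕ} {w : ℕ → Y} {t : ℕ → ℝ} (h : IsChain (fun t => φ (-t)) δ' m w t) :
    IsChain φ δ m (fun j => w (m - j)) (fun j => t (m - 1 - j)) := by
  intro j hj
  have h1 := h (m - 1 - j) (by omega)
  have e : m - 1 - j + 1 = m - j := by omega
  have e' : m - (j + 1) = m - 1 - j := by omega
  rw [e] at h1
  refine ⟨h1.1, h1.2.1, ?_⟩
  show dist (φ (t (m - 1 - j)) (w (m - j))) (w (m - (j + 1))) < δ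
  rw [e']
  have h2 := hu (t (m - 1 - j)) ⟨by linarith [h1.1], h1.2.1⟩ _ _ h1.2.2
  dsimp only at h2
  rw [← ha, add_neg_cancel, h0, dist_comm] at h2
  exact h2

theorem neg_add_flow {Y : Type w} {φ : ℝ → Y → Y}
    (ha : ∀ s t y, φ (s + t) y = φ s (φ t y)) (s t : ℝ) (y : Y) :
    φ (-(s + t)) y = φ (-s) (φ (-t) y) := by rw [neg_add, ha]

theorem flowShadow_neg {Y : Type w} [MetricSpace Y] [CompactSpace Y] {φ : ℝ → Y → Y}
    (hc : Continuous (fun q : ℝ × Y => φ q.1 q.2)) (h0 : ∀ y, φ 0 y = y)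
    (ha : ∀ s t y, φ (s + t) y = φ s (φ t y)) (h : FlowShadow φ) :
    FlowShadow (fun t => φ (-t)) := by
  intro η hη
  obtain ⟨δ, hδ, H⟩ := h η hη
  obtain ⟨δ', hδ', hu⟩ := unif hc hδ
  refine ⟨δ', hδ', fun m w t hm hwm hw => ?_⟩
  obtain ⟨p, s, hpm, hp⟩ := H m (fun j => w (m - j)) (fun j => t (m - 1 - j)) hm (by
    simp only [Nat.sub_self, Nat.sub_zero]
    exact hwm.symm) (isChain_rev h0 ha hu hw)
  refine ⟨fun i => p (m - i), fun i => s (m - 1 - i), ?_, fun i hi => ⟨?_, ?_, ?_⟩⟩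
  · simp only [Nat.sub_self, Nat.sub_zero]
    exact hpm.symm
  · have h1 := (hp (m - 1 - i) (by omega)).1
    have e : m - 1 - i + 1 = m - i := by omega
    have e' : m - (i + 1) = m - 1 - i := by omega
    rw [e] at h1
    show φ (-(s (m - 1 - i))) (p (m - i)) = p (m - (i + 1))
    rw [e', ← h1, ← ha, neg_add_cancel, h0]
  · have h1 := (hp (m - 1 - i) (by omega)).2.1
    have e : m - 1 - (m - 1 - i) = i := by omega
    rw [e] at h1
    exact h1
  · by_cases hi0 : i = 0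
    · subst hi0
      have h1 := (hp 0 (by omega)).2.2
      simp only [Nat.sub_zero] at h1 ⊢
      rw [hpm, ← hwm]
      exact h1
    · have h1 := (hp (m - i) (by omega)).2.2
      have e : m - (m - i) = i := by omega
      dsimp only at h1 ⊢
      rw [e] at h1
      exact h1

theorem flowTrans_neg {Y : Type w} [MetricSpace Y] [CompactSpace Y] {φ : ℝ → Y → Y}
    (hc : Continuous (fun q : ℝ × Y => φ q.1 q.2)) (h0 : ∀ y, φ 0 y = y)
    (ha : ∀ s t y, φ (s + t) y = φ s (φ t y)) (h : FlowTrans φ) :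
    FlowTrans (fun t => φ (-t)) := by
  intro δ hδ p q
  have hc' : Continuous (fun q : ℝ × Y => φ (-q.1) q.2) :=
    hc.comp (continuous_fst.neg.prodMk continuous_snd)
  obtain ⟨δ', hδ', hu⟩ := unif (φ := fun t => φ (-t)) hc' hδ
  obtain ⟨m, w, t, hm, hw0, hwm, hw⟩ := h δ' hδ' q p
  refine ⟨m, fun j => w (m - j), fun j => t (m - 1 - j), hm, ?_, ?_, ?_⟩
  · simp only [Nat.sub_zero]
    exact hwm
  · simp only [Nat.sub_self]
    exact hw0
  · refine isChain_rev (φ := fun t => φ (-t)) (δ' := δ') (by simpa using h0)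
      (fun s t y => neg_add_flow ha s t y) hu ?_
    simpa only [neg_neg] using hw

theorem main' {n : ℕ} {N : Type u} [TopologicalSpace N] [T2Space N] [CompactSpace N]
    [ChartedSpace (V n) N] [IsManifold (𝓡 n) ∞ N] (r : ℕ∞) (hr : 1 ≤ r) (F : DiffM n N r)
    {ψ : ℝ → N → N} (hψ : IsFlow n N ψ)
    {X : Type v} {Y : Type w} [MetricSpace X] [CompactSpace X] [MetricSpace Y] [CompactSpace Y]
    (f : X → X) (hfc : Continuous f) {φ : ℝ → Y → Y} (hsh : FlowShadow φ) (htr : FlowTrans φ)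
    (hne : ∀ p : Y, ∃ y, ∀ t, φ t p ≠ y)
    {τ : X → ℝ} (hτ : AvgNonneg f τ ∨ AvgNonneg f (fun x => -τ x)) {Θ : X × Y → N}
    (hF : IsFlowExt F ψ f φ τ Θ) (x : X)
    (hx : NonWand f x) (y : Y) : Closable n N r F (Θ (x, y)) := by
  rcases hτ with hτ | hτ
  · exact main r hr F hψ f hfc hsh htr hne hτ hF x hx y
  · have hφc := hF.cont_act hψ x
    have h0 := hF.zero hψ x
    have ha := hF.add hψ x
    have hψ' : IsFlow n N (fun t => ψ (-t)) := by
      refine ⟨?_, fun y => by simpa using hψ.zero y, fun s t y => neg_add_flow hψ.add s t y⟩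
      have h1 : ContMDiff (𝓘(ℝ, ℝ).prod (𝓡 n)) (𝓘(ℝ, ℝ).prod (𝓡 n)) ∞
          (fun q : ℝ × N => (-q.1, q.2)) := by
        refine ContMDiff.prodMk ?_ contMDiff_snd
        have h2 : ContMDiff 𝓘(ℝ, ℝ) 𝓘(ℝ, ℝ) ∞ (fun t : ℝ => -t) := contDiff_neg.contMDiff
        exact h2.comp contMDiff_fst
      exact hψ.smooth.comp h1
    have hF' : IsFlowExt F (fun t => ψ (-t)) f (fun t => φ (-t)) (fun x => -τ x) Θ :=
      ⟨hF.emb, hF.cont.neg, fun s x y => hF.act (-s) x y, fun x y => by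
        rw [hF.map, neg_neg]⟩
    refine main r hr F hψ' f hfc (flowShadow_neg hφc h0 ha hsh) (flowTrans_neg hφc h0 ha htr)
      (fun p => ?_) hτ hF' x hx y
    obtain ⟨y, hy⟩ := hne p
    exact ⟨y, fun t => hy (-t)⟩

/-- the case of a nonnegative function -/
theorem avgNonneg_of_nonneg {X : Type*} {f : X → X} {τ : X → ℝ} (h : ∀ x, 0 ≤ τ x) :
    AvgNonneg f τ := by
  intro ε hε
  refine ⟨0, fun i _ x => ?_⟩
  have h1 : 0 ≤ birkhoffSum f τ i x := Finset.sum_nonneg fun j _ => h _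
  have h2 : 0 ≤ ε * i := by positivity
  linarith

end Pool.Agent.T6.H48.FX
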